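import Mathlib

/-!
# Exact minima of monic integer polynomials on Farey intervals

Let `I` be a Farey interval with endpoints `a/b` and `A/B`, `2 ≤ b < B`, `|aB - Ab| = 1`, and let
`E` be any set with `a/b ∈ E ⊆ I`.  The trivial lower bound for `m_n(E)` comes from the single
point `a/b`: the integer `b ^ n P(a/b)` is congruent to `a ^ n` modulo `b`, so that
`|P(a/b)| ≥ dist(a ^ n, bℤ) / b ^ n`.  We prove that this is the exact value of `m_n(E)` for every
`n ≥ 2 b B`, and that the minimum is attained.  In particular the monic integer transfinite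
diameter of `E` is `1/b`, and it is attained exactly in the degrees `n` with `a ^ n ≡ ± 1 (mod b)`.
-/

open Polynomial Filter Topology Finset

namespace Pool.Agent.Results.MP_1bffc6_nt.ExactMinima

/-- `maxAbs E P` is the supremum of `|P(z)|` over `z ∈ E`; it is the maximum when `E` is compact
and nonempty. -/
noncomputable def maxAbs (E : Set ℂ) (P : ℤ[X]) : ℝ :=
  sSup ((fun z : ℂ => ‖aeval z P‖) '' E)

/-- `mMonic E n` is `m_n(E)`: the infimum of `max_{z ∈ E} |P(z)|` over all monic integer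
polynomials `P` of degree exactly `n`. -/
noncomputable def mMonic (E : Set ℂ) (n : ℕ) : ℝ :=
  sInf {r : ℝ | ∃ P : ℤ[X], P.Monic ∧ P.natDegree = n ∧ r = maxAbs E P}

/-- The monic integer transfinite diameter, the limit of `m_n(E)^(1/n)`. -/
noncomputable def tauM (E : Set ℂ) : ℝ :=
  limUnder atTop (fun n : ℕ => (mMonic E n) ^ ((1 : ℝ) / n))

/-- The closed real interval `[u, v]`, as a set of complex numbers. -/
def realInterval (u v : ℝ) : Set ℂ := (fun x : ℝ => (x : ℂ)) '' Set.Icc u v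

/-- The distance from the integer `k` to the nearest multiple of `b` (for `b > 0`). -/
def distMul (k b : ℤ) : ℤ := min (k % b) (b - k % b)

/-! ### The distance to the multiples of `b` -/

lemma distMul_le_abs (b k z : ℤ) (hb : 0 < b) (h : b ∣ z - k) : distMul k b ≤ |z| := by
  have hr : k % b = z % b := (Int.modEq_iff_dvd).2 h
  have h1 : b * (z / b) + z % b = z := Int.mul_ediv_add_emod z b
  have h2 : 0 ≤ z % b := Int.emod_nonneg _ hb.ne'
  have h3 : z % b < b := Int.emod_lt_of_pos _ hb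
  unfold distMul
  rw [hr]
  rcases le_or_gt 0 z with hz | hz
  · have h4 : 0 ≤ z / b := Int.ediv_nonneg hz hb.le
    have h5 : 0 ≤ b * (z / b) := mul_nonneg hb.le h4
    rw [abs_of_nonneg hz]
    exact (min_le_left _ _).trans (by linarith)
  · have h4 : z / b ≤ -1 := by
      have := Int.ediv_neg_of_neg_of_pos hz hb
      omega
    have h5 : b * (z / b) ≤ b * (-1) := mul_le_mul_of_nonneg_left h4 hb.le
    rw [abs_of_neg hz]
    exact (min_le_right _ _).trans (by linarith)

lemma exists_rep (b k : ℤ) (hb : 0 < b) : ∃ c : ℤ, b ∣ c - k ∧ |c| = distMul k b := by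
  have h2 : 0 ≤ k % b := Int.emod_nonneg _ hb.ne'
  have h3 : k % b < b := Int.emod_lt_of_pos _ hb
  have h1 : b * (k / b) + k % b = k := Int.mul_ediv_add_emod k b
  unfold distMul
  rcases le_total (k % b) (b - k % b) with h | h
  · refine ⟨k % b, ⟨-(k / b), by linarith⟩, ?_⟩
    rw [min_eq_left h, abs_of_nonneg h2]
  · refine ⟨k % b - b, ⟨-(k / b) - 1, by linarith⟩, ?_⟩
    rw [min_eq_right h, abs_of_neg (by linarith)]
    ring

lemma distMul_pos (b k : ℤ) (hb : 2 ≤ b) (h : IsCoprime k b) : 1 ≤ distMul k b := by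
  have hb0 : 0 < b := by omega
  have h2 : 0 ≤ k % b := Int.emod_nonneg _ hb0.ne'
  have h3 : k % b < b := Int.emod_lt_of_pos _ hb0
  have h4 : k % b ≠ 0 := by
    intro h0
    have hd : b ∣ k := Int.dvd_of_emod_eq_zero h0
    obtain ⟨u, v, huv⟩ := h
    have : b ∣ 1 := by
      rw [← huv]
      exact dvd_add (hd.mul_left u) (dvd_mul_left b v)
    have := Int.le_of_dvd one_pos this
    omega
  unfold distMul
  rw [le_min_iff]
  constructor <;> omega

lemma distMul_le (b k : ℤ) (hb : 0 < b) : distMul k b ≤ b := by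
  have h3 : k % b < b := Int.emod_lt_of_pos _ hb
  exact (min_le_left _ _).trans h3.le

lemma choose_ge (n : ℕ) : ∀ k : ℕ, 1 ≤ k → k + 1 ≤ n → n ≤ n.choose k := by
  induction n with
  | zero => intro k _ h; omega
  | succ n ih =>
    intro k h1 h2
    obtain ⟨j, rfl⟩ : ∃ j, k = j + 1 := ⟨k - 1, by omega⟩
    have hs : (n + 1).choose (j + 1) = n.choose j + n.choose (j + 1) := Nat.choose_succ_succ' n j
    rw [hs]
    rcases Nat.lt_or_ge (j + 1 + 1) (n + 1) with h | h
    · have := ih (j + 1) (by omega) (by omega)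
      have h3 : 0 < n.choose j := Nat.choose_pos (by omega)
      omega
    · have h3 : n = j + 1 := by omega
      subst h3
      rw [Nat.choose_self, Nat.choose_succ_self_right]

lemma one_add_mul_le_pow_aux (b : ℤ) (hb : 0 < b) (m : ℕ) :
    ((m : ℤ) + 1) * b ^ m ≤ (b + 1) ^ (m + 1) := by
  have h : ∀ m : ℕ, b ^ (m + 1) + ((m : ℤ) + 1) * b ^ m ≤ (b + 1) ^ (m + 1) := by
    intro m
    induction m with
    | zero => simp
    | succ m ih =>
      have h1 : (b ^ (m + 1) + ((m : ℤ) + 1) * b ^ m) * (b + 1) ≤ (b + 1) ^ (m + 1) * (b + 1) :=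
        mul_le_mul_of_nonneg_right ih (by omega)
      have h2 : 0 ≤ ((m : ℤ) + 1) * b ^ m := by positivity
      have h3 : (b ^ (m + 1) + ((m : ℤ) + 1) * b ^ m) * (b + 1) =
          b ^ (m + 1 + 1) + (((m : ℤ) + 1) + 1) * b ^ (m + 1) + ((m : ℤ) + 1) * b ^ m := by ring
      rw [pow_succ (b + 1) (m + 1)]
      push_cast
      linarith
  have h1 := h m
  have h2 : 0 < b ^ (m + 1) := by positivity
  linarith

/-! ### The digits -/

/-- Expansion of an integer in the mixed basis `B ^ k (-b) ^ (m - k)` with digits in `[0, b)`,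
except for the last coefficient, which is controlled. -/
lemma digits (b B : ℤ) (hb : 2 ≤ b) (hbB : b < B) (hco : IsCoprime b B) (m : ℕ) :
    ∀ e : ℤ, ∃ f : ℕ → ℤ, (∀ k, 1 ≤ k → k ≤ m → 0 ≤ f k ∧ f k < b) ∧
      ∑ k ∈ range (m + 1), f k * (B ^ k * (-b) ^ (m - k)) = e ∧
      |f 0| * b ^ m ≤ |e| + b ^ 2 * B ^ m := by
  have hb0 : 0 < b := by omega
  have hB0 : 0 < B := by omega
  induction m with
  | zero =>
    intro e
    refine ⟨fun _ => e, ?_, by simp, ?_⟩
    · intro k h1 h2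
      omega
    · simp
      positivity
  | succ m ih =>
    intro e
    obtain ⟨c, e', hc0, hcb, he⟩ : ∃ c e' : ℤ, 0 ≤ c ∧ c < b ∧ e = c * B ^ (m + 1) - b * e' := by
      obtain ⟨u, v, huv⟩ := hco.pow_right (n := m + 1)
      refine ⟨(v * e) % b, ((v * e) % b * B ^ (m + 1) - e) / b, Int.emod_nonneg _ (by omega),
        Int.emod_lt_of_pos _ (by omega), ?_⟩
      have hdvd : b ∣ ((v * e) % b * B ^ (m + 1) - e) := by
        have h1 : (v * e) % b = v * e - b * (v * e / b) := by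
          have := Int.emod_add_mul_ediv (v * e) b
          linarith
        rw [h1]
        refine ⟨-(v * e / b) * B ^ (m + 1) - u * e, ?_⟩
        have h2 : e = (u * b + v * B ^ (m + 1)) * e := by rw [huv, one_mul]
        linear_combination -h2
      rw [Int.mul_ediv_cancel' hdvd]
      ring
    obtain ⟨f, hf1, hf2, hf3⟩ := ih e'
    refine ⟨fun k => if k = m + 1 then c else f k, ?_, ?_, ?_⟩
    · intro k hk1 hk2
      by_cases h : k = m + 1
      · simp only [h, if_true]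
        exact ⟨hc0, hcb⟩
      · simp only [h, if_false]
        exact hf1 k hk1 (by omega)
    · rw [sum_range_succ]
      have hs : ∑ k ∈ range (m + 1), (if k = m + 1 then c else f k) *
          (B ^ k * (-b) ^ (m + 1 - k)) =
          -b * ∑ k ∈ range (m + 1), f k * (B ^ k * (-b) ^ (m - k)) := by
        rw [mul_sum]
        refine sum_congr rfl ?_
        intro k hk
        rw [mem_range] at hk
        rw [if_neg (by omega), show m + 1 - k = (m - k) + 1 by omega, pow_succ]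
        ring
      rw [hs, hf2, he]
      simp
      ring
    · have h0 : (if 0 = m + 1 then c else f 0) = f 0 := if_neg (by omega)
      simp only [h0]
      have h1 : b * |e'| ≤ |e| + (b - 1) * B ^ (m + 1) := by
        have e1 : b * |e'| = |b * e'| := by rw [abs_mul, abs_of_pos hb0]
        have e2 : b * e' = c * B ^ (m + 1) - e := by linarith
        rw [e1, e2]
        have e3 : |c * B ^ (m + 1) - e| ≤ |c * B ^ (m + 1)| + |e| := abs_sub _ _
        have e4 : |c * B ^ (m + 1)| = c * B ^ (m + 1) :=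
          abs_of_nonneg (mul_nonneg hc0 (by positivity))
        have e5 : c * B ^ (m + 1) ≤ (b - 1) * B ^ (m + 1) :=
          mul_le_mul_of_nonneg_right (by omega) (by positivity)
        linarith
      have h2 : |f 0| * b ^ (m + 1) = b * (|f 0| * b ^ m) := by ring
      have h3 : b * (|f 0| * b ^ m) ≤ b * (|e'| + b ^ 2 * B ^ m) :=
        mul_le_mul_of_nonneg_left hf3 hb0.le
      have h4 : (b - 1) * B ^ (m + 1) + b * (b ^ 2 * B ^ m) ≤ b ^ 2 * B ^ (m + 1) := by
        have h5 : 0 ≤ (b ^ 2 * B - (b - 1) * B - b ^ 3) * B ^ m := by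
          refine mul_nonneg ?_ (by positivity)
          have h6 : (b + 1) * (b ^ 2 - b + 1) ≤ B * (b ^ 2 - b + 1) :=
            mul_le_mul_of_nonneg_right (by omega) (by nlinarith)
          nlinarith
        rw [pow_succ]
        nlinarith [h5]
      rw [h2]
      linarith [mul_add b |e'| (b ^ 2 * B ^ m)]

/-- The coefficients of the extremal form. -/
lemma coeffs (b B : ℤ) (hb : 2 ≤ b) (hbB : b < B) (hco : IsCoprime b B) (n : ℕ)
    (hn : 2 * b * B ≤ n) (c e : ℤ) (he : |e| ≤ 1) (hc : 1 ≤ |c|) (hdvd : b ∣ c * B ^ n - e) :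
    ∃ f : ℕ → ℤ, f n = c ∧ ∑ k ∈ range (n + 1), f k * (B ^ k * (-b) ^ (n - k)) = e ∧
      ∀ k ≤ n, |f k| * b ^ (n - k) ≤ |c| * (n.choose k) * B ^ (n - k) := by
  have hb0 : 0 < b := by omega
  have hB0 : 0 < B := by omega
  have hbB2 : b + 1 ≤ B := hbB
  have hn8 : 8 ≤ (n : ℤ) := by nlinarith
  have hn8' : 8 ≤ n := by exact_mod_cast hn8
  obtain ⟨e₁, he₁⟩ := hdvd
  obtain ⟨m, rfl⟩ : ∃ m, n = m + 1 := ⟨n - 1, by omega⟩
  obtain ⟨f, hf1, hf2, hf3⟩ := digits b B hb hbB hco m e₁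
  -- the shift
  set q : ℤ := f 0 / B with hq
  have hq0 : B * q + f 0 % B = f 0 := Int.mul_ediv_add_emod (f 0) B
  have hr0 : 0 ≤ f 0 % B := Int.emod_nonneg _ hB0.ne'
  have hr1 : f 0 % B < B := Int.emod_lt_of_pos _ hB0
  let g : ℕ → ℤ := fun k => if k = m + 1 then c else if k = 0 then f 0 % B else
    if k = 1 then f 1 - b * q else f k
  have hg0 : g 0 = f 0 % B := by simp [g]
  have hg1 : g 1 = f 1 - b * q := by
    have : (1 : ℕ) ≠ m + 1 := by omega
    simp [g, this]
    omega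
  have hgn : g (m + 1) = c := by simp [g]
  have hgk : ∀ k, 2 ≤ k → k ≤ m → g k = f k := by
    intro k h1 h2
    have a1 : k ≠ m + 1 := by omega
    have a2 : k ≠ 0 := by omega
    have a3 : k ≠ 1 := by omega
    simp [g, a1, a2, a3]
  refine ⟨g, hgn, ?_, ?_⟩
  · -- the value
    rw [sum_range_succ, hgn]
    obtain ⟨j, rfl⟩ : ∃ j, m = j + 1 := ⟨m - 1, by omega⟩
    have hS : ∑ k ∈ range (j + 1 + 1), g k * (B ^ k * (-b) ^ (j + 1 + 1 - k)) =
        -b * ∑ k ∈ range (j + 1 + 1), f k * (B ^ k * (-b) ^ (j + 1 - k)) := by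
      rw [mul_sum, sum_range_succ', sum_range_succ', sum_range_succ', sum_range_succ']
      have hS1 : ∑ k ∈ range j, g (k + 1 + 1) * (B ^ (k + 1 + 1) *
            (-b) ^ (j + 1 + 1 - (k + 1 + 1))) =
          ∑ k ∈ range j, -b * (f (k + 1 + 1) * (B ^ (k + 1 + 1) *
            (-b) ^ (j + 1 - (k + 1 + 1)))) := by
        refine sum_congr rfl ?_
        intro k hk
        rw [mem_range] at hk
        rw [hgk (k + 1 + 1) (by omega) (by omega),
          show j + 1 + 1 - (k + 1 + 1) = (j + 1 - (k + 1 + 1)) + 1 by omega, pow_succ]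
        ring
      rw [hS1]
      have h01 : g (0 + 1) = f 1 - b * q := hg1
      rw [h01, hg0]
      have h2 : f 0 % B = f 0 - B * q := by linarith
      rw [h2]
      have h3 : j + 1 + 1 - (0 + 1) = j + 1 := by omega
      have h4 : j + 1 - (0 + 1) = j := by omega
      rw [h3, h4]
      simp only [Nat.sub_zero, pow_zero, one_mul, zero_add, pow_one]
      ring
    rw [hS, hf2]
    have : (-b) ^ (j + 1 + 1 - (j + 1 + 1)) = 1 := by simp
    rw [this]
    linarith
  · intro k hk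
    have hpowb : 0 < b ^ m := by positivity
    have hpowB : 0 < B ^ m := by positivity
    have hbBm : b ^ m ≤ B ^ m := pow_le_pow_left₀ hb0.le hbB.le m
    have hn' : 2 * b * B ≤ (m : ℤ) + 1 := by exact_mod_cast hn
    have habs0 : |f 0| * b ^ (m + 1) ≤ |c| * B ^ (m + 1) + 1 + b ^ 2 * B ^ (m + 1) := by
      have e1 : b * |e₁| ≤ |c| * B ^ (m + 1) + 1 := by
        have e2 : b * |e₁| = |b * e₁| := by rw [abs_mul, abs_of_pos hb0]
        rw [e2, ← he₁]
        refine (abs_sub _ _).trans ?_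
        rw [abs_mul, abs_of_pos (pow_pos hB0 _)]
        linarith
      have e3 : b * (|f 0| * b ^ m) ≤ b * (|e₁| + b ^ 2 * B ^ m) :=
        mul_le_mul_of_nonneg_left hf3 hb0.le
      have e4 : b * (b ^ 2 * B ^ m) ≤ b ^ 2 * B ^ (m + 1) := by
        have h1 : 0 ≤ (B - b) * (b ^ 2 * B ^ m) := mul_nonneg (by omega) (by positivity)
        have h2 : B ^ (m + 1) = B ^ m * B := pow_succ B m
        have h3 : b ^ 2 * (B ^ m * B) - b * (b ^ 2 * B ^ m) = (B - b) * (b ^ 2 * B ^ m) := by ring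
        rw [h2]
        linarith
      have e5 : |f 0| * b ^ (m + 1) = b * (|f 0| * b ^ m) := by ring
      rw [e5]
      linarith [mul_add b |e₁| (b ^ 2 * B ^ m)]
    rcases Nat.eq_zero_or_pos k with h0 | h0
    · -- k = 0
      subst h0
      rw [hg0, Nat.choose_zero_right, Nat.sub_zero, abs_of_nonneg hr0]
      have h1 : (b + 1) ^ (m + 1) ≤ B ^ (m + 1) := pow_le_pow_left₀ (by omega) hbB2 _
      have h2 : ((m : ℤ) + 1) * b ^ m ≤ (b + 1) ^ (m + 1) := by
        have := one_add_mul_le_pow_aux b hb0 m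
        exact this
      have h3 : B * b ^ (m + 1) ≤ ((m : ℤ) + 1) * b ^ m := by
        rw [pow_succ]
        have : 0 ≤ ((m : ℤ) + 1 - B * b) * b ^ m := by
          refine mul_nonneg ?_ hpowb.le
          nlinarith
        nlinarith
      have h4 : f 0 % B * b ^ (m + 1) ≤ B * b ^ (m + 1) :=
        mul_le_mul_of_nonneg_right hr1.le (by positivity)
      have h5 : 1 * B ^ (m + 1) ≤ |c| * B ^ (m + 1) :=
        mul_le_mul_of_nonneg_right hc (by positivity)
      push_cast
      linarith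
    · rcases Nat.lt_or_ge 1 k with h1 | h1
      · rcases Nat.lt_or_ge k (m + 1) with h2 | h2
        · -- 2 ≤ k ≤ m
          rw [hgk k (by omega) (by omega)]
          obtain ⟨p1, p2⟩ := hf1 k (by omega) (by omega)
          rw [abs_of_nonneg p1]
          have hch : m + 1 ≤ (m + 1).choose k := choose_ge (m + 1) k (by omega) (by omega)
          have hch' : (m : ℤ) + 1 ≤ ((m + 1).choose k : ℤ) := by exact_mod_cast hch
          have hfb : f k ≤ |c| * ((m + 1).choose k : ℤ) := by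
            have : b ≤ (m : ℤ) + 1 := by nlinarith
            nlinarith
          have hbB' : b ^ (m + 1 - k) ≤ B ^ (m + 1 - k) := pow_le_pow_left₀ hb0.le hbB.le _
          calc f k * b ^ (m + 1 - k) ≤ (|c| * ((m + 1).choose k : ℤ)) * b ^ (m + 1 - k) :=
                mul_le_mul_of_nonneg_right hfb (by positivity)
            _ ≤ (|c| * ((m + 1).choose k : ℤ)) * B ^ (m + 1 - k) :=
                mul_le_mul_of_nonneg_left hbB' (by positivity)
        · -- k = m + 1
          have h3 : k = m + 1 := by omega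
          subst h3
          rw [hgn]
          simp
      · -- k = 1
        have h2 : k = 1 := by omega
        subst h2
        rw [hg1, Nat.choose_one_right, Nat.add_sub_cancel]
        obtain ⟨p1, p2⟩ := hf1 1 le_rfl (by omega)
        have hq1 : B * |q| ≤ |f 0| + B := by
          have : B * |q| = |B * q| := by rw [abs_mul, abs_of_pos hB0]
          rw [this, show B * q = f 0 - f 0 % B by linarith]
          refine (abs_sub _ _).trans ?_
          rw [abs_of_nonneg hr0]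
          linarith
        have habs1 : |f 1 - b * q| ≤ b + b * |q| := by
          refine (abs_sub _ _).trans ?_
          rw [abs_of_nonneg p1, abs_mul, abs_of_pos hb0]
          linarith
        -- multiply by `B`
        have key : B * (|f 1 - b * q| * b ^ m) ≤
            B * (|c| * ((m + 1 : ℕ) : ℤ) * B ^ m) := by
          have k1 : B * (|f 1 - b * q| * b ^ m) ≤ B * ((b + b * |q|) * b ^ m) :=
            mul_le_mul_of_nonneg_left (mul_le_mul_of_nonneg_right habs1 hpowb.le) hB0.le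
          have k2 : B * ((b + b * |q|) * b ^ m) = B * b ^ (m + 1) + (B * |q|) * b ^ (m + 1) := by
            ring
          have k3 : (B * |q|) * b ^ (m + 1) ≤ (|f 0| + B) * b ^ (m + 1) :=
            mul_le_mul_of_nonneg_right hq1 (by positivity)
          have k4 : (|f 0| + B) * b ^ (m + 1) ≤
              |c| * B ^ (m + 1) + 1 + b ^ 2 * B ^ (m + 1) + B * b ^ (m + 1) := by
            rw [add_mul]
            linarith
          have k5 : 2 * (B * b ^ (m + 1)) ≤ 2 * b * B ^ (m + 1) := by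
            have : b ^ m * (2 * b * B) ≤ B ^ m * (2 * b * B) :=
              mul_le_mul_of_nonneg_right hbBm (by positivity)
            rw [pow_succ, pow_succ]
            linarith
          have k6 : (1 : ℤ) ≤ B ^ (m + 1) := one_le_pow₀ (by omega)
          have k7 : (|c| + (m : ℤ)) * B ^ (m + 1) ≤ |c| * ((m : ℤ) + 1) * B ^ (m + 1) := by
            refine mul_le_mul_of_nonneg_right ?_ (by positivity)
            have : (m : ℤ) * 1 ≤ (m : ℤ) * |c| := mul_le_mul_of_nonneg_left hc (by positivity)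
            linarith
          have k8 : (|c| + b ^ 2 + 2 * b + 1) * B ^ (m + 1) ≤ (|c| + (m : ℤ)) * B ^ (m + 1) := by
            refine mul_le_mul_of_nonneg_right ?_ (by positivity)
            nlinarith
          have k9 : B * (|c| * ((m + 1 : ℕ) : ℤ) * B ^ m) =
              |c| * ((m : ℤ) + 1) * B ^ (m + 1) := by
            push_cast
            ring
          rw [k9]
          have k10 : (|c| + b ^ 2 + 2 * b + 1) * B ^ (m + 1) =
              |c| * B ^ (m + 1) + b ^ 2 * B ^ (m + 1) + 2 * b * B ^ (m + 1) + B ^ (m + 1) := by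
            ring
          linarith
        exact le_of_mul_le_mul_left key hB0

/-! ### The polynomials -/

/-- The lower bound at the point `a/b`. -/
lemma point_lower (a b : ℤ) (hb : 2 ≤ b) (n : ℕ) (P : ℤ[X]) (hP : P.Monic)
    (hn : P.natDegree = n) :
    (distMul (a ^ n) b : ℝ) / (b : ℝ) ^ n ≤ |aeval ((a : ℝ) / b) P| := by
  have hb0 : (0 : ℤ) < b := by omega
  have hbR : (0 : ℝ) < b := by exact_mod_cast hb0
  set z : ℤ := ∑ i ∈ range (n + 1), P.coeff i * (a ^ i * b ^ (n - i)) with hz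
  have hval : (b : ℝ) ^ n * aeval ((a : ℝ) / b) P = z := by
    rw [aeval_eq_sum_range, hn, mul_sum, hz]
    push_cast
    refine sum_congr rfl ?_
    intro i hi
    rw [mem_range] at hi
    have h1 : (b : ℝ) ^ n = (b : ℝ) ^ (n - i) * (b : ℝ) ^ i := by
      rw [← pow_add]
      congr 1
      omega
    rw [zsmul_eq_mul, div_pow, h1]
    field_simp
  have hdvd : b ∣ z - a ^ n := by
    rw [hz, sum_range_succ]
    have hlc : P.coeff n = 1 := by rw [← hn]; exact hP
    rw [hlc, Nat.sub_self, pow_zero, mul_one, one_mul, add_sub_cancel_right]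
    refine dvd_sum ?_
    intro i hi
    rw [mem_range] at hi
    obtain ⟨j, hj⟩ : ∃ j, n - i = j + 1 := ⟨n - i - 1, by omega⟩
    rw [hj, pow_succ]
    exact ⟨P.coeff i * (a ^ i * b ^ j), by ring⟩
  have h1 : (distMul (a ^ n) b : ℝ) ≤ |(z : ℝ)| := by
    have := distMul_le_abs b (a ^ n) z hb0 hdvd
    exact_mod_cast this
  rw [div_le_iff₀ (pow_pos hbR n)]
  refine h1.trans (le_of_eq ?_)
  rw [← hval, abs_mul, abs_of_pos (pow_pos hbR n), mul_comm]

/-- The extremal polynomial. -/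
lemma exists_extremal (a b A B ε : ℤ) (hb : 2 ≤ b) (hbB : b < B) (hε : ε = 1 ∨ ε = -1)
    (hdet : a * B - A * b = ε) (n : ℕ) (hn : 2 * b * B ≤ n) :
    ∃ P : ℤ[X], P.Monic ∧ P.natDegree = n ∧
      ∀ x : ℝ, 0 ≤ (ε : ℝ) * (B * x - A) → 0 ≤ (ε : ℝ) * (a - b * x) →
        |aeval x P| ≤ (distMul (a ^ n) b : ℝ) / (b : ℝ) ^ n := by
  have hb0 : (0 : ℤ) < b := by omega
  have hB0 : (0 : ℤ) < B := by omega
  have hbR : (0 : ℝ) < b := by exact_mod_cast hb0
  have hBR : (0 : ℝ) < B := by exact_mod_cast hB0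
  have hε2 : ε * ε = 1 := by rcases hε with h | h <;> simp [h]
  have hco : IsCoprime b B := ⟨-(ε * A), ε * a, by linear_combination ε * hdet + hε2⟩
  have hco2 : IsCoprime a b := ⟨ε * B, -(ε * A), by linear_combination ε * hdet + hε2⟩
  obtain ⟨c, hc1, hc2⟩ := exists_rep b (a ^ n) hb0
  have hcpos : 1 ≤ |c| := by
    rw [hc2]
    exact distMul_pos b (a ^ n) hb hco2.pow_left
  have hεn : |ε ^ n| ≤ 1 := by
    rw [abs_pow]
    rcases hε with h | h <;> simp [h]
  have hdvd : b ∣ c * B ^ n - ε ^ n := by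
    have h1 : b ∣ (a * B) ^ n - ε ^ n := by
      refine dvd_trans ?_ (sub_dvd_pow_sub_pow (a * B) ε n)
      exact ⟨A, by linear_combination hdet⟩
    have h2 : c * B ^ n - ε ^ n = (c - a ^ n) * B ^ n + ((a * B) ^ n - ε ^ n) := by
      rw [mul_pow]
      ring
    rw [h2]
    exact dvd_add (hc1.mul_right _) h1
  obtain ⟨f, hfn, hfs, hfb⟩ := coeffs b B hb hbB hco n hn c (ε ^ n) hεn hcpos hdvd
  let S : ℤ[X] := C (ε * B) * X + C (-(ε * A))
  let T : ℤ[X] := C (-(ε * b)) * X + C (ε * a)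
  have hSd : S.natDegree ≤ 1 := natDegree_linear_le
  have hTd : T.natDegree ≤ 1 := natDegree_linear_le
  have hSc : S.coeff 1 = ε * B := by
    simp only [S, coeff_add, coeff_C_mul, coeff_X_one, mul_one, coeff_C_succ, add_zero]
  have hTc : T.coeff 1 = -(ε * b) := by
    simp only [T, coeff_add, coeff_C_mul, coeff_X_one, mul_one, coeff_C_succ, add_zero]
  have hSk : ∀ k : ℕ, (S ^ k).natDegree ≤ k ∧ (S ^ k).coeff k = (ε * B) ^ k := by
    intro k
    constructor
    · refine natDegree_pow_le.trans ?_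
      nlinarith
    · have := coeff_pow_of_natDegree_le (p := S) (m := k) (n := 1) hSd
      simpa [hSc] using this
  have hTk : ∀ k : ℕ, (T ^ k).natDegree ≤ k ∧ (T ^ k).coeff k = (-(ε * b)) ^ k := by
    intro k
    constructor
    · refine natDegree_pow_le.trans ?_
      nlinarith
    · have := coeff_pow_of_natDegree_le (p := T) (m := k) (n := 1) hTd
      simpa [hTc] using this
  set P : ℤ[X] := ∑ k ∈ range (n + 1), C (f k) * (S ^ k * T ^ (n - k)) with hPdef
  have hPd : P.natDegree ≤ n := by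
    refine natDegree_sum_le_of_forall_le _ _ ?_
    intro k hk
    rw [mem_range] at hk
    refine (natDegree_C_mul_le _ _).trans ?_
    refine natDegree_mul_le.trans ?_
    have h1 := (hSk k).1
    have h2 := (hTk (n - k)).1
    omega
  have hPc : P.coeff n = 1 := by
    rw [hPdef, finset_sum_coeff]
    have h1 : ∀ k ∈ range (n + 1), (C (f k) * (S ^ k * T ^ (n - k))).coeff n =
        ε ^ n * (f k * (B ^ k * (-b) ^ (n - k))) := by
      intro k hk
      rw [mem_range] at hk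
      rw [coeff_C_mul]
      have h2 : (S ^ k * T ^ (n - k)).coeff (k + (n - k)) =
          (S ^ k).coeff k * (T ^ (n - k)).coeff (n - k) :=
        coeff_mul_add_eq_of_natDegree_le (hSk k).1 (hTk (n - k)).1
      rw [show k + (n - k) = n by omega] at h2
      rw [h2, (hSk k).2, (hTk (n - k)).2]
      have h3 : ε ^ n = ε ^ k * ε ^ (n - k) := by
        rw [← pow_add]
        congr 1
        omega
      rw [h3, show -(ε * b) = ε * (-b) by ring, mul_pow, mul_pow]
      ring
    rw [sum_congr rfl h1, ← mul_sum, hfs, ← mul_pow, hε2, one_pow]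
  have hmon : P.Monic := monic_of_natDegree_le_of_coeff_eq_one n hPd hPc
  refine ⟨P, hmon, ?_, ?_⟩
  · refine le_antisymm hPd (le_natDegree_of_ne_zero ?_)
    rw [hPc]
    exact one_ne_zero
  · intro x hs ht
    set s : ℝ := (ε : ℝ) * (B * x - A) with hsdef
    set t : ℝ := (ε : ℝ) * (a - b * x) with htdef
    have hsum : (b : ℝ) * s + B * t = 1 := by
      have h1 : (a : ℝ) * B - A * b = ε := by exact_mod_cast hdet
      have h2 : (ε : ℝ) * ε = 1 := by exact_mod_cast hε2
      rw [hsdef, htdef]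
      linear_combination (ε : ℝ) * h1 + h2
    have hSx : aeval x S = s := by
      simp [S, hsdef]
      ring
    have hTx : aeval x T = t := by
      simp [T, htdef]
      ring
    have hev : aeval x P = ∑ k ∈ range (n + 1), (f k : ℝ) * (s ^ k * t ^ (n - k)) := by
      rw [hPdef, map_sum]
      refine sum_congr rfl ?_
      intro k _
      rw [map_mul, map_mul, map_pow, map_pow, hSx, hTx]
      simp
    rw [hev, ← hc2]
    rw [le_div_iff₀ (pow_pos hbR n)]
    have hterm : ∀ k ∈ range (n + 1), |(f k : ℝ) * (s ^ k * t ^ (n - k))| * (b : ℝ) ^ n ≤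
        (|c| : ℝ) * ((b * s) ^ k * (B * t) ^ (n - k) * (n.choose k)) := by
      intro k hk
      rw [mem_range] at hk
      have hsk : (0 : ℝ) ≤ s ^ k := pow_nonneg hs k
      have htk : (0 : ℝ) ≤ t ^ (n - k) := pow_nonneg ht _
      rw [abs_mul, abs_of_nonneg (mul_nonneg hsk htk)]
      have h1 : (b : ℝ) ^ n = (b : ℝ) ^ k * (b : ℝ) ^ (n - k) := by
        rw [← pow_add]
        congr 1
        omega
      have h2 : |(f k : ℝ)| * (b : ℝ) ^ (n - k) ≤ (|c| : ℝ) * (n.choose k) * (B : ℝ) ^ (n - k) := by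
        have := hfb k (by omega)
        exact_mod_cast this
      have h3 : |(f k : ℝ)| * (s ^ k * t ^ (n - k)) * (b : ℝ) ^ n =
          (|(f k : ℝ)| * (b : ℝ) ^ (n - k)) * ((b : ℝ) ^ k * s ^ k * t ^ (n - k)) := by
        rw [h1]
        ring
      have h4 : (|c| : ℝ) * ((b * s) ^ k * (B * t) ^ (n - k) * (n.choose k)) =
          ((|c| : ℝ) * (n.choose k) * (B : ℝ) ^ (n - k)) * ((b : ℝ) ^ k * s ^ k * t ^ (n - k)) := by
        rw [mul_pow, mul_pow]
        ring
      rw [h3, h4]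
      refine mul_le_mul_of_nonneg_right h2 ?_
      positivity
    calc |∑ k ∈ range (n + 1), (f k : ℝ) * (s ^ k * t ^ (n - k))| * (b : ℝ) ^ n
        ≤ (∑ k ∈ range (n + 1), |(f k : ℝ) * (s ^ k * t ^ (n - k))|) * (b : ℝ) ^ n :=
          mul_le_mul_of_nonneg_right (abs_sum_le_sum_abs _ _) (by positivity)
      _ = ∑ k ∈ range (n + 1), |(f k : ℝ) * (s ^ k * t ^ (n - k))| * (b : ℝ) ^ n := by
          rw [sum_mul]
      _ ≤ ∑ k ∈ range (n + 1), (|c| : ℝ) * ((b * s) ^ k * (B * t) ^ (n - k) * (n.choose k)) :=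
          sum_le_sum hterm
      _ = (|c| : ℝ) * (b * s + B * t) ^ n := by
          rw [← mul_sum, add_pow]
      _ = ((|c| : ℤ) : ℝ) := by
          rw [hsum, one_pow, mul_one]
          push_cast
          rfl

/-! ### The main theorem -/

lemma aeval_ofReal (P : ℤ[X]) (x : ℝ) : ‖aeval (x : ℂ) P‖ = |aeval x P| := by
  have h := aeval_algebraMap_apply ℂ x P
  have h2 : (algebraMap ℝ ℂ) x = (x : ℂ) := rfl
  rw [h2] at h
  rw [h]
  simp

/-- The values `|P|` on a subset of a compact real interval are bounded above. -/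
lemma bddAbove_subset (u v : ℝ) (E : Set ℂ) (hE : E ⊆ realInterval u v) (P : ℤ[X]) :
    BddAbove ((fun z : ℂ => ‖aeval z P‖) '' E) := by
  have hc : IsCompact (realInterval u v) := isCompact_Icc.image Complex.continuous_ofReal
  have hcont : Continuous (fun z : ℂ => ‖aeval z P‖) := (P.continuous_aeval).norm
  exact (hc.image hcont).bddAbove.mono (Set.image_mono hE)

lemma core (a b A B ε : ℤ) (hb : 2 ≤ b) (hbB : b < B) (hε : ε = 1 ∨ ε = -1)
    (hdet : a * B - A * b = ε) (u v : ℝ)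
    (hx : ∀ x ∈ Set.Icc u v, 0 ≤ (ε : ℝ) * (B * x - A) ∧ 0 ≤ (ε : ℝ) * (a - b * x))
    (E : Set ℂ) (hE : E ⊆ realInterval u v) (ha : (((a : ℝ) / b : ℝ) : ℂ) ∈ E) (n : ℕ) :
    (∀ P : ℤ[X], P.Monic → P.natDegree = n →
      (distMul (a ^ n) b : ℝ) / (b : ℝ) ^ n ≤ maxAbs E P) ∧
    (2 * b * B ≤ n → ∃ P : ℤ[X], P.Monic ∧ P.natDegree = n ∧
      maxAbs E P = (distMul (a ^ n) b : ℝ) / (b : ℝ) ^ n) := by
  have h1 : ∀ P : ℤ[X], P.Monic → P.natDegree = n →
      (distMul (a ^ n) b : ℝ) / (b : ℝ) ^ n ≤ maxAbs E P := by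
    intro P hP hn
    refine (point_lower a b hb n P hP hn).trans ?_
    rw [← aeval_ofReal]
    exact le_csSup (bddAbove_subset u v E hE P) ⟨_, ha, rfl⟩
  refine ⟨h1, ?_⟩
  intro hn
  obtain ⟨P, hP, hPn, hPx⟩ := exists_extremal a b A B ε hb hbB hε hdet n hn
  refine ⟨P, hP, hPn, le_antisymm ?_ (h1 P hP hPn)⟩
  refine csSup_le ⟨_, ⟨_, ha, rfl⟩⟩ ?_
  rintro _ ⟨z, hz, rfl⟩
  obtain ⟨x, hxI, rfl⟩ := hE hz
  simp only [aeval_ofReal]
  exact hPx x (hx x hxI).1 (hx x hxI).2

lemma mMonic_eq (E : Set ℂ) (n : ℕ) (M : ℝ)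
    (h1 : ∀ P : ℤ[X], P.Monic → P.natDegree = n → M ≤ maxAbs E P)
    (h2 : ∃ P : ℤ[X], P.Monic ∧ P.natDegree = n ∧ maxAbs E P = M) : mMonic E n = M := by
  obtain ⟨P, hP, hn, hPM⟩ := h2
  refine le_antisymm ?_ ?_
  · refine csInf_le ⟨M, ?_⟩ ⟨P, hP, hn, hPM.symm⟩
    rintro r ⟨Q, hQ, hQn, rfl⟩
    exact h1 Q hQ hQn
  · refine le_csInf ⟨M, P, hP, hn, hPM.symm⟩ ?_
    rintro r ⟨Q, hQ, hQn, rfl⟩
    exact h1 Q hQ hQn

/-- The limit of the roots. -/
lemma tendsto_root (f : ℕ → ℝ) (d : ℕ → ℤ) (b : ℤ) (hb : 2 ≤ b) (hd : ∀ n, 1 ≤ d n ∧ d n ≤ b)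
    (h : ∀ᶠ n : ℕ in atTop, f n = (d n : ℝ) / (b : ℝ) ^ n) :
    Tendsto (fun n : ℕ => (f n) ^ ((1 : ℝ) / n)) atTop (𝓝 (1 / (b : ℝ))) := by
  have hbR : (2 : ℝ) ≤ b := by exact_mod_cast hb
  have hb0 : (0 : ℝ) < b := by linarith
  have hroot : ∀ n : ℕ, 1 ≤ n → ((1 / (b : ℝ)) ^ n) ^ ((1 : ℝ) / n) = 1 / (b : ℝ) := by
    intro n hn
    rw [one_div (n : ℝ)]
    exact Real.pow_rpow_inv_natCast (by positivity) (by omega)
  have hlim : Tendsto (fun n : ℕ => (b : ℝ) ^ ((1 : ℝ) / n) * (1 / (b : ℝ))) atTop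
      (𝓝 (1 / (b : ℝ))) := by
    have h0 : Tendsto (fun n : ℕ => (1 : ℝ) / n) atTop (𝓝 0) :=
      tendsto_const_div_atTop_nhds_zero_nat 1
    have hc : Continuous (fun y : ℝ => (b : ℝ) ^ y) := Real.continuous_const_rpow hb0.ne'
    have h1 := ((hc.tendsto 0).comp h0).mul_const (1 / (b : ℝ))
    simpa [Function.comp_def] using h1
  refine tendsto_of_tendsto_of_tendsto_of_le_of_le' tendsto_const_nhds hlim ?_ ?_
  · filter_upwards [h, eventually_ge_atTop 1] with n hn hn1
    have hd1 : (1 : ℝ) ≤ d n := by exact_mod_cast (hd n).1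
    rw [hn]
    calc 1 / (b : ℝ) = ((1 / (b : ℝ)) ^ n) ^ ((1 : ℝ) / n) := (hroot n hn1).symm
      _ ≤ ((d n : ℝ) / (b : ℝ) ^ n) ^ ((1 : ℝ) / n) := by
          refine Real.rpow_le_rpow (by positivity) ?_ (by positivity)
          rw [div_pow, one_pow]
          exact div_le_div_of_nonneg_right hd1 (by positivity)
  · filter_upwards [h, eventually_ge_atTop 1] with n hn hn1
    have hd1 : (1 : ℝ) ≤ d n := by exact_mod_cast (hd n).1
    have hd2 : (d n : ℝ) ≤ b := by exact_mod_cast (hd n).2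
    rw [hn]
    calc ((d n : ℝ) / (b : ℝ) ^ n) ^ ((1 : ℝ) / n) ≤
          ((b : ℝ) * (1 / (b : ℝ)) ^ n) ^ ((1 : ℝ) / n) := by
          refine Real.rpow_le_rpow (by positivity) ?_ (by positivity)
          rw [div_pow, one_pow, ← div_eq_mul_one_div]
          exact div_le_div_of_nonneg_right hd2 (by positivity)
      _ = (b : ℝ) ^ ((1 : ℝ) / n) * (1 / (b : ℝ)) := by
          rw [Real.mul_rpow hb0.le (by positivity), hroot n hn1]

/-- If `b ≥ 2` then `dist(k, bℤ) = 1` exactly when `k ≡ ± 1 (mod b)`. -/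
lemma distMul_eq_one (b k : ℤ) (hb : 2 ≤ b) :
    distMul k b = 1 ↔ (b ∣ k - 1 ∨ b ∣ k + 1) := by
  have hb0 : 0 < b := by omega
  have h1 : b * (k / b) + k % b = k := Int.mul_ediv_add_emod k b
  have h2 : 0 ≤ k % b := Int.emod_nonneg _ hb0.ne'
  have h3 : k % b < b := Int.emod_lt_of_pos _ hb0
  constructor
  · intro h
    unfold distMul at h
    rcases le_total (k % b) (b - k % b) with hc | hc
    · rw [min_eq_left hc] at h
      exact Or.inl ⟨k / b, by linarith⟩
    · rw [min_eq_right hc] at h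
      exact Or.inr ⟨k / b + 1, by linarith⟩
  · intro h
    have hle : distMul k b ≤ 1 := by
      rcases h with h | h
      · have := distMul_le_abs b k 1 hb0 (by
          have := (dvd_neg.2 h)
          rwa [neg_sub] at this)
        simpa using this
      · have := distMul_le_abs b k (-1) hb0 (by
          have := (dvd_neg.2 h)
          rwa [neg_add, add_comm, ← sub_eq_add_neg] at this)
        simpa using this
    have hge : 1 ≤ distMul k b := by
      refine distMul_pos b k hb ?_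
      rcases h with ⟨u, hu⟩ | ⟨u, hu⟩
      · exact ⟨1, -u, by linear_combination hu⟩
      · exact ⟨-1, u, by linear_combination -hu⟩
    omega

/-- **Theorem.** Let `I = [a₁/b₁, a₂/b₂]` be a Farey interval: `b₁, b₂ ≥ 2` and
`|a₁ b₂ - a₂ b₁| = 1`.  Then `τ(I) = max (1/b₁) (1/b₂)` (the Borwein-Pinner-Pritsker conjecture).
More precisely, let `a/b` be the endpoint with the smaller denominator and let `E` be any set with
`a/b ∈ E ⊆ I`, for instance `E = I`.

* For every `n ≥ 2 b₁ b₂` the number `m_n(E)` is exactly `dist(a ^ n, bℤ) / b ^ n`, and a monic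
  integer polynomial of degree `n` attains it.
* For `n ≥ 2 b₁ b₂` a monic integer polynomial `P` of degree `n` with `max_E |P| = τ(E) ^ n` exists
  if and only if `a ^ n ≡ ± 1 (mod b)`; this is the case for all multiples `n` of `φ(b)`.
* `m_n(E)^(1/n)` converges to `max (1/b₁) (1/b₂) = τ(E)`. -/
theorem result (a₁ b₁ a₂ b₂ : ℤ) (hb₁ : 2 ≤ b₁) (hb₂ : 2 ≤ b₂)
    (hdet : |a₁ * b₂ - a₂ * b₁| = 1) (hlt : (a₁ : ℝ) / b₁ < (a₂ : ℝ) / b₂) :
    tauM (realInterval ((a₁ : ℝ) / b₁) ((a₂ : ℝ) / b₂)) = max (1 / (b₁ : ℝ)) (1 / (b₂ : ℝ)) ∧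
    ∃ a b : ℤ, ((a = a₁ ∧ b = b₁) ∨ (a = a₂ ∧ b = b₂)) ∧ b = min b₁ b₂ ∧
      ∀ E : Set ℂ, E ⊆ realInterval ((a₁ : ℝ) / b₁) ((a₂ : ℝ) / b₂) →
        (((a : ℝ) / b : ℝ) : ℂ) ∈ E →
        (∀ n : ℕ, 2 * b₁ * b₂ ≤ n →
          mMonic E n = (distMul (a ^ n) b : ℝ) / (b : ℝ) ^ n ∧
          ∃ P : ℤ[X], P.Monic ∧ P.natDegree = n ∧
            maxAbs E P = (distMul (a ^ n) b : ℝ) / (b : ℝ) ^ n) ∧
        (∀ n : ℕ, 2 * b₁ * b₂ ≤ n →
          ((∃ P : ℤ[X], P.Monic ∧ P.natDegree = n ∧ maxAbs E P = tauM E ^ n) ↔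
            (b ∣ a ^ n - 1 ∨ b ∣ a ^ n + 1))) ∧
        (∀ n : ℕ, 2 * b₁ * b₂ ≤ n → b.toNat.totient ∣ n →
          ∃ P : ℤ[X], P.Monic ∧ P.natDegree = n ∧ maxAbs E P = tauM E ^ n) ∧
        Tendsto (fun n : ℕ => (mMonic E n) ^ ((1 : ℝ) / n)) atTop
          (𝓝 (max (1 / (b₁ : ℝ)) (1 / (b₂ : ℝ)))) ∧
        tauM E = max (1 / (b₁ : ℝ)) (1 / (b₂ : ℝ)) := by
  have hb1 : (0 : ℝ) < b₁ := by
    have : (0 : ℤ) < b₁ := by omega
    exact_mod_cast this
  have hb2 : (0 : ℝ) < b₂ := by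
    have : (0 : ℤ) < b₂ := by omega
    exact_mod_cast this
  have hneg : a₁ * b₂ - a₂ * b₁ = -1 := by
    have h1 : (a₁ : ℝ) * b₂ < a₂ * b₁ := by
      rwa [div_lt_div_iff₀ hb1 hb2] at hlt
    have h2 : a₁ * b₂ < a₂ * b₁ := by exact_mod_cast h1
    rcases (abs_eq (zero_le_one)).1 hdet with h | h
    · omega
    · exact h
  have hne : b₁ ≠ b₂ := by
    rintro rfl
    have : b₁ ∣ 1 := ⟨a₂ - a₁, by linear_combination hneg⟩
    have := Int.le_of_dvd one_pos this
    omega
  have hfacts : ∀ x ∈ Set.Icc ((a₁ : ℝ) / b₁) ((a₂ : ℝ) / b₂),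
      (a₁ : ℝ) ≤ b₁ * x ∧ (b₂ : ℝ) * x ≤ a₂ := by
    rintro x ⟨h1, h2⟩
    rw [div_le_iff₀ hb1] at h1
    rw [le_div_iff₀ hb2] at h2
    constructor <;> linarith
  -- reduction to one statement
  have main : ∀ a b A B ε : ℤ, 2 ≤ b → b < B → (ε = 1 ∨ ε = -1) → a * B - A * b = ε →
      2 * b * B = 2 * b₁ * b₂ → 1 / (b : ℝ) = max (1 / (b₁ : ℝ)) (1 / (b₂ : ℝ)) →
      (∀ x ∈ Set.Icc ((a₁ : ℝ) / b₁) ((a₂ : ℝ) / b₂),
        0 ≤ (ε : ℝ) * (B * x - A) ∧ 0 ≤ (ε : ℝ) * (a - b * x)) →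
      ∀ E : Set ℂ, E ⊆ realInterval ((a₁ : ℝ) / b₁) ((a₂ : ℝ) / b₂) →
        (((a : ℝ) / b : ℝ) : ℂ) ∈ E →
        (∀ n : ℕ, 2 * b₁ * b₂ ≤ n →
          mMonic E n = (distMul (a ^ n) b : ℝ) / (b : ℝ) ^ n ∧
          ∃ P : ℤ[X], P.Monic ∧ P.natDegree = n ∧
            maxAbs E P = (distMul (a ^ n) b : ℝ) / (b : ℝ) ^ n) ∧
        (∀ n : ℕ, 2 * b₁ * b₂ ≤ n →
          ((∃ P : ℤ[X], P.Monic ∧ P.natDegree = n ∧ maxAbs E P = tauM E ^ n) ↔
            (b ∣ a ^ n - 1 ∨ b ∣ a ^ n + 1))) ∧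
        (∀ n : ℕ, 2 * b₁ * b₂ ≤ n → b.toNat.totient ∣ n →
          ∃ P : ℤ[X], P.Monic ∧ P.natDegree = n ∧ maxAbs E P = tauM E ^ n) ∧
        Tendsto (fun n : ℕ => (mMonic E n) ^ ((1 : ℝ) / n)) atTop
          (𝓝 (max (1 / (b₁ : ℝ)) (1 / (b₂ : ℝ)))) ∧
        tauM E = max (1 / (b₁ : ℝ)) (1 / (b₂ : ℝ)) := by
    intro a b A B ε hb hbB hε hd hN hmax hx E hE ha
    have hb0 : (0 : ℤ) < b := by omega
    have hbR : (0 : ℝ) < b := by exact_mod_cast hb0
    have hε2 : ε * ε = 1 := by rcases hε with h | h <;> simp [h]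
    have hco : IsCoprime a b := ⟨ε * B, -(ε * A), by linear_combination ε * hd + hε2⟩
    have hc := core a b A B ε hb hbB hε hd _ _ hx E hE ha
    have h1 : ∀ n : ℕ, 2 * b₁ * b₂ ≤ n →
          mMonic E n = (distMul (a ^ n) b : ℝ) / (b : ℝ) ^ n ∧
          ∃ P : ℤ[X], P.Monic ∧ P.natDegree = n ∧
            maxAbs E P = (distMul (a ^ n) b : ℝ) / (b : ℝ) ^ n := by
      intro n hn
      have h2 := (hc n).2 (by rw [hN]; exact hn)
      exact ⟨mMonic_eq E n _ (hc n).1 h2, h2⟩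
    have hev : ∀ᶠ n : ℕ in atTop, mMonic E n = (distMul (a ^ n) b : ℝ) / (b : ℝ) ^ n := by
      filter_upwards [eventually_ge_atTop (2 * b₁ * b₂).toNat] with n hn
      exact (h1 n (by omega)).1
    have hlim := tendsto_root (fun n => mMonic E n) (fun n => distMul (a ^ n) b) b hb
      (fun n => ⟨distMul_pos b (a ^ n) hb hco.pow_left, distMul_le b (a ^ n) hb0⟩) hev
    have htau : tauM E = 1 / (b : ℝ) := hlim.limUnder_eq
    have h2 : ∀ n : ℕ, 2 * b₁ * b₂ ≤ n →
          ((∃ P : ℤ[X], P.Monic ∧ P.natDegree = n ∧ maxAbs E P = tauM E ^ n) ↔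
            (b ∣ a ^ n - 1 ∨ b ∣ a ^ n + 1)) := by
      intro n hn
      rw [← distMul_eq_one b (a ^ n) hb, htau]
      constructor
      · rintro ⟨P, hP, hPn, hPM⟩
        have h3 := (hc n).1 P hP hPn
        rw [hPM, div_pow, one_pow, div_le_div_iff_of_pos_right (pow_pos hbR n)] at h3
        have h4 : distMul (a ^ n) b ≤ 1 := by exact_mod_cast h3
        have h5 := distMul_pos b (a ^ n) hb hco.pow_left
        omega
      · intro h3
        obtain ⟨P, hP, hPn, hPM⟩ := (h1 n hn).2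
        refine ⟨P, hP, hPn, ?_⟩
        rw [hPM, h3, div_pow, one_pow]
        norm_num
    refine ⟨h1, h2, ?_, ?_, ?_⟩
    · intro n hn hdvd
      rw [h2 n hn]
      left
      obtain ⟨k, rfl⟩ := hdvd
      set m : ℕ := b.toNat with hm
      have hbm : (m : ℤ) = b := by omega
      have hu : IsUnit (a : ZMod m) := by
        rw [ZMod.coe_int_isUnit_iff_isCoprime, hbm]
        exact hco.symm
      obtain ⟨w, hw⟩ := hu
      have h3 : (a : ZMod m) ^ (m.totient * k) = 1 := by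
        rw [pow_mul, ← hw, ← Units.val_pow_eq_pow_val, ZMod.pow_totient]
        simp
      rw [← hbm, ← ZMod.intCast_zmod_eq_zero_iff_dvd]
      push_cast
      rw [h3, sub_self]
    · rw [← hmax]
      exact hlim
    · rw [← hmax]
      exact htau
  rcases lt_or_gt_of_ne hne with hlt' | hgt'
  · have hmax : 1 / (b₁ : ℝ) = max (1 / (b₁ : ℝ)) (1 / (b₂ : ℝ)) := by
      refine (max_eq_left (one_div_le_one_div_of_le hb1 ?_)).symm
      exact_mod_cast hlt'.le
    have hm := main a₁ b₁ a₂ b₂ (-1) hb₁ hlt' (Or.inr rfl) hneg rfl hmax (by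
      intro x hx
      obtain ⟨h1, h2⟩ := hfacts x hx
      push_cast
      constructor <;> linarith)
    exact ⟨(hm _ subset_rfl ⟨_, ⟨le_rfl, hlt.le⟩, rfl⟩).2.2.2.2, a₁, b₁, Or.inl ⟨rfl, rfl⟩,
      (min_eq_left hlt'.le).symm, hm⟩
  · have hmax : 1 / (b₂ : ℝ) = max (1 / (b₁ : ℝ)) (1 / (b₂ : ℝ)) := by
      refine (max_eq_right (one_div_le_one_div_of_le hb2 ?_)).symm
      exact_mod_cast hgt'.le
    have hm := main a₂ b₂ a₁ b₁ 1 hb₂ hgt' (Or.inl rfl) (by linear_combination -hneg) (by ring)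
      hmax (by
      intro x hx
      obtain ⟨h1, h2⟩ := hfacts x hx
      push_cast
      constructor <;> linarith)
    exact ⟨(hm _ subset_rfl ⟨_, ⟨hlt.le, le_rfl⟩, rfl⟩).2.2.2.2, a₂, b₂, Or.inr ⟨rfl, rfl⟩,
      (min_eq_right hgt'.le).symm, hm⟩

end Pool.Agent.Results.MP_1bffc6_nt.ExactMinima
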