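import Pool.Agent.Y840.FI.Lim

/-!
# Monic integer transfinite diameter: two-sided intervals around a reduced fraction

`maxAbs`, `mMonic`, `tauM`, `realInterval` are the definitions of the starting file
`Pool.Agent.Results.MP_1bffc6_nt.FareyFull`: `maxAbs E P` is the supremum of `|P|` on `E`,
`mMonic E n` is `m_n(E)`, `tauM E` is the limit of `m_n(E) ^ (1 / n)`, and `realInterval u v` is
the interval `[u, v]`.
-/

set_option autoImplicit false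

open Polynomial Filter Topology
open Pool.Agent.Results.MP_1bffc6_nt.FareyFull

namespace Pool.Agent.Results.MP_1bffc6_nt.TwoSidedIntervals

open Pool.Agent.Y840.FI

theorem mem_real {u v : ℝ} {c d : ℤ} (h1 : u ≤ (c : ℝ) / d) (h2 : (c : ℝ) / d ≤ v) :
    (c : ℂ) / d ∈ realInterval u v := ⟨(c : ℝ) / d, ⟨h1, h2⟩, by push_cast; ring⟩

/-- Real intervals between the parents. -/
theorem general_real {p s : ℤ} {q r : ℕ} (hq : 1 ≤ q) (hr : 1 ≤ r) (hdet : s * q - p * r = 1)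
    {c d : ℤ} (hd : 2 ≤ d) (hco : IsCoprime c d) (hdb : (d : ℝ) ≤ (r : ℝ) + q) {u v : ℝ}
    (hu : u ≤ (c : ℝ) / d) (hv : (c : ℝ) / d ≤ v)
    (hpu : (p : ℝ) ≤ q * u) (hvs : (r : ℝ) * v ≤ s)
    (hTu : -(1 / (d : ℝ)) ≤ ((r : ℝ) + q) * u - (p + s))
    (hTv : ((r : ℝ) + q) * v - (p + s) ≤ 1 / (d : ℝ)) :
    Tendsto (fun n : ℕ => (mMonic (realInterval u v) n) ^ ((1 : ℝ) / n)) atTop
      (𝓝 (1 / (d : ℝ))) ∧ tauM (realInterval u v) = 1 / (d : ℝ) := by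
  have hqR : (1 : ℝ) ≤ q := by exact_mod_cast hq
  have hrR : (1 : ℝ) ≤ r := by exact_mod_cast hr
  refine general hq hr hdet hd hco hdb (mem_real hu hv) ?_ ?_
  · rintro _ ⟨x, ⟨hx1, hx2⟩, rfl⟩
    rw [norm_T_real, abs_le]
    constructor <;> nlinarith
  · rintro _ ⟨x, ⟨hx1, hx2⟩, rfl⟩
    refine good_real hq hr hdet ?_ ?_ <;> nlinarith

/-- Two-sided intervals. -/
theorem two_sided (a b : ℤ) (u v : ℝ) (hb : 2 ≤ b) (hco : IsCoprime a b)
    (h1 : (a : ℝ) / b - 1 / (b : ℝ) ^ 2 ≤ u) (h2 : u ≤ (a : ℝ) / b) (h3 : (a : ℝ) / b ≤ v)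
    (h4 : v ≤ (a : ℝ) / b + 1 / (b : ℝ) ^ 2) :
    Tendsto (fun n : ℕ => (mMonic (realInterval u v) n) ^ ((1 : ℝ) / n)) atTop
      (𝓝 (1 / (b : ℝ))) ∧ tauM (realInterval u v) = 1 / (b : ℝ) := by
  obtain ⟨p, s, q, r, hq, hr, hdet, rfl, rfl⟩ := parents hb hco
  have hqR : (1 : ℝ) ≤ q := by exact_mod_cast hq
  have hrR : (1 : ℝ) ≤ r := by exact_mod_cast hr
  push_cast at h1 h2 h3 h4 ⊢
  have hb0 : (0 : ℝ) < (r : ℝ) + q := by linarith
  have hd : (s : ℝ) * q - p * r = 1 := by exact_mod_cast hdet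
  have hinv : (0 : ℝ) < 1 / ((r : ℝ) + q) := by positivity
  have hsq : ((r : ℝ) + q) * (1 / ((r : ℝ) + q) ^ 2) = 1 / ((r : ℝ) + q) := by field_simp
  have hab : ((r : ℝ) + q) * (((p : ℝ) + s) / ((r : ℝ) + q)) = p + s := by field_simp
  have h1' : (p : ℝ) + s - 1 / ((r : ℝ) + q) ≤ ((r : ℝ) + q) * u := by
    have := mul_le_mul_of_nonneg_left h1 hb0.le
    rw [mul_sub, hsq, hab] at this
    exact this
  have h4' : ((r : ℝ) + q) * v ≤ (p : ℝ) + s + 1 / ((r : ℝ) + q) := by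
    have := mul_le_mul_of_nonneg_left h4 hb0.le
    rw [mul_add, hsq, hab] at this
    exact this
  have hone : ((r : ℝ) + q) * (1 / ((r : ℝ) + q)) = 1 := by field_simp
  have hq1 : (q : ℝ) * (1 / ((r : ℝ) + q)) ≤ 1 := by
    rw [mul_one_div, div_le_one hb0]; linarith
  have hr1 : (r : ℝ) * (1 / ((r : ℝ) + q)) ≤ 1 := by
    rw [mul_one_div, div_le_one hb0]; linarith
  have hcop : IsCoprime (p + s) ((r : ℤ) + q) := hco
  have key := general_real (c := p + s) (d := (r : ℤ) + q) (u := u) (v := v) hq hr hdet hb hcop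
    (by push_cast; linarith) (by push_cast; exact h2) (by push_cast; exact h3) ?_ ?_ ?_ ?_
  · push_cast at key
    exact key
  · -- p ≤ q u
    have h5 : (q : ℝ) * ((p : ℝ) + s - 1 / ((r : ℝ) + q)) ≤ q * (((r : ℝ) + q) * u) :=
      mul_le_mul_of_nonneg_left h1' (by linarith)
    have h6 : ((r : ℝ) + q) * p ≤ ((r : ℝ) + q) * (q * u) := by nlinarith
    exact le_of_mul_le_mul_left h6 hb0
  · have h5 : (r : ℝ) * (((r : ℝ) + q) * v) ≤ r * ((p : ℝ) + s + 1 / ((r : ℝ) + q)) :=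
      mul_le_mul_of_nonneg_left h4' (by linarith)
    have h6 : ((r : ℝ) + q) * (r * v) ≤ ((r : ℝ) + q) * s := by nlinarith
    exact le_of_mul_le_mul_left h6 hb0
  · push_cast; linarith
  · push_cast; linarith

/-- Farey intervals. -/
theorem farey (a₁ b₁ a₂ b₂ : ℤ) (hb₁ : 2 ≤ b₁) (hb₂ : 2 ≤ b₂)
    (hdet : |a₁ * b₂ - a₂ * b₁| = 1) (hlt : (a₁ : ℝ) / b₁ < (a₂ : ℝ) / b₂) :
    Tendsto (fun n : ℕ =>
        (mMonic (realInterval ((a₁ : ℝ) / b₁) ((a₂ : ℝ) / b₂)) n) ^ ((1 : ℝ) / n)) atTop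
      (𝓝 (max (1 / (b₁ : ℝ)) (1 / (b₂ : ℝ)))) ∧
    tauM (realInterval ((a₁ : ℝ) / b₁) ((a₂ : ℝ) / b₂)) = max (1 / (b₁ : ℝ)) (1 / (b₂ : ℝ)) := by
  have hb1 : (0 : ℝ) < b₁ := by
    have : (0 : ℤ) < b₁ := by omega
    exact_mod_cast this
  have hb2 : (0 : ℝ) < b₂ := by
    have : (0 : ℤ) < b₂ := by omega
    exact_mod_cast this
  have hdet' : a₂ * b₁ - a₁ * b₂ = 1 := by
    have h1 : (a₁ : ℝ) * b₂ < a₂ * b₁ := by
      rwa [div_lt_div_iff₀ hb1 hb2] at hlt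
    have h2 : a₁ * b₂ < a₂ * b₁ := by exact_mod_cast h1
    rcases (abs_eq (zero_le_one)).1 hdet with h | h
    · omega
    · omega
  have hdR : (a₂ : ℝ) * b₁ - a₁ * b₂ = 1 := by exact_mod_cast hdet'
  obtain ⟨q, rfl⟩ : ∃ q : ℕ, b₁ = q := ⟨b₁.toNat, (Int.toNat_of_nonneg (by omega)).symm⟩
  obtain ⟨r, rfl⟩ : ∃ r : ℕ, b₂ = r := ⟨b₂.toNat, (Int.toNat_of_nonneg (by omega)).symm⟩
  have hq : 1 ≤ q := by omega
  have hr : 1 ≤ r := by omega
  simp only [Int.cast_natCast] at hb1 hb2 hdR hlt ⊢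
  have e1 : ((r : ℝ) + q) * ((a₁ : ℝ) / q) - (a₁ + a₂) = -(1 / (q : ℝ)) := by
    field_simp
    linear_combination (-1 : ℝ) * hdR
  have e2 : ((r : ℝ) + q) * ((a₂ : ℝ) / r) - (a₁ + a₂) = 1 / (r : ℝ) := by
    field_simp
    linear_combination hdR
  rcases le_total (q : ℝ) r with hle | hle
  · have hmax : max (1 / (q : ℝ)) (1 / (r : ℝ)) = 1 / (q : ℝ) :=
      max_eq_left (one_div_le_one_div_of_le hb1 hle)
    rw [hmax]
    have key := general_real (c := a₁) (d := (q : ℤ)) (u := (a₁ : ℝ) / q) (v := (a₂ : ℝ) / r)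
      hq hr hdet' hb₁ ⟨-(r : ℤ), a₂, by linear_combination hdet'⟩ (by push_cast; linarith)
      (by push_cast; exact le_rfl) (by push_cast; exact hlt.le) (by field_simp; exact le_rfl)
      (by field_simp; exact le_rfl) (by push_cast; rw [e1])
      (by push_cast; rw [e2]; exact one_div_le_one_div_of_le hb1 hle)
    simpa using key
  · have hmax : max (1 / (q : ℝ)) (1 / (r : ℝ)) = 1 / (r : ℝ) :=
      max_eq_right (one_div_le_one_div_of_le hb2 hle)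
    rw [hmax]
    have key := general_real (c := a₂) (d := (r : ℤ)) (u := (a₁ : ℝ) / q) (v := (a₂ : ℝ) / r)
      hq hr hdet' hb₂ ⟨(q : ℤ), -a₁, by linear_combination hdet'⟩ (by push_cast; linarith)
      (by push_cast; exact hlt.le) (by push_cast; exact le_rfl) (by field_simp; exact le_rfl)
      (by field_simp; exact le_rfl)
      (by push_cast; rw [e1]; exact neg_le_neg (one_div_le_one_div_of_le hb2 hle))
      (by push_cast; rw [e2])
    simpa using key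

/-- Intervals without integers: bounds. -/
theorem integer_free (a b : ℤ) (u v : ℝ) (hb : 2 ≤ b) (hco : IsCoprime a b)
    (hu : u ≤ (a : ℝ) / b) (hv : (a : ℝ) / b ≤ v)
    (hmin : ∀ c d : ℤ, 1 ≤ d → d < b → (c : ℝ) / d < u ∨ v < (c : ℝ) / d) :
    Tendsto (fun n : ℕ => (mMonic (realInterval u v) n) ^ ((1 : ℝ) / n)) atTop
      (𝓝 (tauM (realInterval u v))) ∧
    1 / (b : ℝ) ≤ tauM (realInterval u v) ∧
    tauM (realInterval u v) ≤ max (1 / (b : ℝ)) (max (a - b * u) (b * v - a)) := by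
  obtain ⟨p, s, q, r, hq, hr, hdet, rfl, rfl⟩ := parents hb hco
  have hqR : (1 : ℝ) ≤ q := by exact_mod_cast hq
  have hrR : (1 : ℝ) ≤ r := by exact_mod_cast hr
  push_cast at hu hv ⊢
  have hb0 : (0 : ℝ) < (r : ℝ) + q := by linarith
  have hd : (s : ℝ) * q - p * r = 1 := by exact_mod_cast hdet
  have hpq : (p : ℝ) / q < ((p : ℝ) + s) / ((r : ℝ) + q) := by
    rw [div_lt_div_iff₀ (by linarith) hb0]; nlinarith
  have hsr : ((p : ℝ) + s) / ((r : ℝ) + q) < (s : ℝ) / r := by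
    rw [div_lt_div_iff₀ hb0 (by linarith)]; nlinarith
  have hpu : (p : ℝ) / q < u := by
    rcases hmin p q (by omega) (by omega) with h | h
    · simpa using h
    · exfalso
      have : v < (p : ℝ) / q := by simpa using h
      linarith
  have hvs : v < (s : ℝ) / r := by
    rcases hmin s r (by omega) (by omega) with h | h
    · exfalso
      have : (s : ℝ) / r < u := by simpa using h
      linarith
    · simpa using h
  have hpu' : (p : ℝ) ≤ q * u := by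
    rw [div_lt_iff₀ (by linarith)] at hpu; linarith
  have hvs' : (r : ℝ) * v ≤ s := by
    rw [lt_div_iff₀ (by linarith)] at hvs; linarith
  set ρ : ℝ := max (1 / ((r : ℝ) + q))
    (max ((p : ℝ) + s - ((r : ℝ) + q) * u) (((r : ℝ) + q) * v - ((p : ℝ) + s))) with hρdef
  have hρ1 : 1 / ((r : ℝ) + q) ≤ ρ := le_max_left _ _
  have hρ2 : (p : ℝ) + s - ((r : ℝ) + q) * u ≤ ρ := (le_max_left _ _).trans (le_max_right _ _)
  have hρ3 : ((r : ℝ) + q) * v - ((p : ℝ) + s) ≤ ρ := (le_max_right _ _).trans (le_max_right _ _)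
  have hρ0 : 0 < ρ := lt_of_lt_of_le (by positivity) hρ1
  have hmem : ((p + s : ℤ) : ℂ) / ((r : ℤ) + q : ℤ) ∈ realInterval u v :=
    mem_real (by push_cast; exact hu) (by push_cast; exact hv)
  have h1 : ∀ z ∈ realInterval u v, ‖((r : ℂ) + q) * z - (p + s)‖ ≤ ρ := by
    rintro _ ⟨x, ⟨hx1, hx2⟩, rfl⟩
    rw [norm_T_real, abs_le]
    constructor <;> nlinarith
  have h2 : ∀ z ∈ realInterval u v, Good p s q r z := by
    rintro _ ⟨x, ⟨hx1, hx2⟩, rfl⟩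
    refine good_real hq hr hdet ?_ ?_ <;> nlinarith
  have hbd := bounded_of hq h1
  have hlow : ∀ n, (1 / ((r : ℝ) + q)) ^ n ≤ mMonic (realInterval u v) n := by
    intro n
    have := lower hbd hb hco hmem n
    push_cast at this
    exact this
  have ht : 0 < 1 / ((r : ℝ) + q) := by positivity
  refine ⟨tendsto_tauM hbd ht hlow, le_tauM hbd ht hlow, ?_⟩
  exact tauM_le hbd ht hlow hρ0 (K := ((r : ℝ) + q) * (2 ^ (r + q) + 1)) (by positivity)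
    (fun n => upper hq hr hdet hρ1 ⟨_, hmem⟩ h1 h2 n)

/-- The radius `1 / b²` is best possible. -/
theorem optimal (κ : ℝ) (hκ : 1 < κ) (b : ℤ) (hb : 3 ≤ b) (hκb : κ / (κ - 1) ≤ b) :
    Tendsto (fun n : ℕ => (mMonic (realInterval (1 / (b : ℝ) - κ / (b : ℝ) ^ 2)
      (1 / (b : ℝ) + κ / (b : ℝ) ^ 2)) n) ^ ((1 : ℝ) / n)) atTop
      (𝓝 (tauM (realInterval (1 / (b : ℝ) - κ / (b : ℝ) ^ 2) (1 / (b : ℝ) + κ / (b : ℝ) ^ 2)))) ∧
    1 / (b : ℝ) < tauM (realInterval (1 / (b : ℝ) - κ / (b : ℝ) ^ 2)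
      (1 / (b : ℝ) + κ / (b : ℝ) ^ 2)) := by
  have hbR : (3 : ℝ) ≤ b := by exact_mod_cast hb
  have hk0 : 0 < κ - 1 := by linarith
  rw [div_le_iff₀ hk0] at hκb
  have hb1 : (0 : ℝ) < (b : ℝ) - 1 := by linarith
  have hmem : ((1 : ℤ) : ℂ) / ((b - 1 : ℤ) : ℂ) ∈ realInterval (1 / (b : ℝ) - κ / (b : ℝ) ^ 2)
      (1 / (b : ℝ) + κ / (b : ℝ) ^ 2) := by
    refine mem_real ?_ ?_
    · push_cast
      have h1 : 1 / (b : ℝ) ≤ 1 / ((b : ℝ) - 1) := one_div_le_one_div_of_le hb1 (by linarith)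
      have h2 : 0 ≤ κ / (b : ℝ) ^ 2 := by positivity
      linarith
    · push_cast
      have h1 : 1 / ((b : ℝ) - 1) - 1 / (b : ℝ) ≤ κ / (b : ℝ) ^ 2 := by
        rw [div_sub_div _ _ hb1.ne' (by linarith), div_le_div_iff₀ (by nlinarith) (by positivity)]
        nlinarith [mul_nonneg (by linarith : (0 : ℝ) ≤ (b : ℝ)) (by linarith : (0 : ℝ) ≤ (b : ℝ) * (κ - 1) - κ)]
      linarith
  have hbd : Bornology.IsBounded (realInterval (1 / (b : ℝ) - κ / (b : ℝ) ^ 2)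
      (1 / (b : ℝ) + κ / (b : ℝ) ^ 2)) :=
    (isCompact_Icc.image Complex.continuous_ofReal).isBounded
  have hlow : ∀ n, (1 / ((b : ℝ) - 1)) ^ n ≤ mMonic (realInterval (1 / (b : ℝ) - κ / (b : ℝ) ^ 2)
      (1 / (b : ℝ) + κ / (b : ℝ) ^ 2)) n := by
    intro n
    have := lower hbd (by omega : (2 : ℤ) ≤ b - 1) isCoprime_one_left hmem n
    push_cast at this
    exact this
  have ht : 0 < 1 / ((b : ℝ) - 1) := by positivity
  refine ⟨tendsto_tauM hbd ht hlow, lt_of_lt_of_le ?_ (le_tauM hbd ht hlow)⟩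
  exact one_div_lt_one_div_of_lt hb1 (by linarith)

/-- **Main theorem.** (1) The Borwein-Pinner-Pritsker conjecture for every Farey interval.
(2) For every reduced fraction `a / b`, `b ≥ 2`, every interval which contains `a / b` and lies in
`[a/b - 1/b², a/b + 1/b²]` has monic integer transfinite diameter `1 / b`.
(3) The radius `1 / b²` is best possible: for every `κ > 1` and `b ≥ max(3, κ/(κ-1))` the interval
`[1/b - κ/b², 1/b + κ/b²]` has a larger diameter.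
(4) For every interval `[u,v]` without integers, with `a / b` its fraction of least denominator,
the limit exists and `1/b ≤ τ ≤ max (1/b) (max (a - b u) (b v - a))`.
(5) Complex sets: if `p / q < s / r` are the Farey parents of the mediant `a / b = (p+s)/(r+q)` and
`E` contains a reduced `c / d`, `2 ≤ d ≤ b`, and `|b z - a| ≤ 1/d` and
`|q z - p| ^ r |s - r z| ^ q ≤ b ^ (-b)` on `E`, then `τ(E) = 1 / d`. -/
theorem result :
    (∀ a₁ b₁ a₂ b₂ : ℤ, 2 ≤ b₁ → 2 ≤ b₂ → |a₁ * b₂ - a₂ * b₁| = 1 →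
      (a₁ : ℝ) / b₁ < (a₂ : ℝ) / b₂ →
      Tendsto (fun n : ℕ =>
        (mMonic (realInterval ((a₁ : ℝ) / b₁) ((a₂ : ℝ) / b₂)) n) ^ ((1 : ℝ) / n)) atTop
        (𝓝 (max (1 / (b₁ : ℝ)) (1 / (b₂ : ℝ)))) ∧
      tauM (realInterval ((a₁ : ℝ) / b₁) ((a₂ : ℝ) / b₂)) =
        max (1 / (b₁ : ℝ)) (1 / (b₂ : ℝ))) ∧
    (∀ (a b : ℤ) (u v : ℝ), 2 ≤ b → IsCoprime a b → (a : ℝ) / b - 1 / (b : ℝ) ^ 2 ≤ u →
      u ≤ (a : ℝ) / b → (a : ℝ) / b ≤ v → v ≤ (a : ℝ) / b + 1 / (b : ℝ) ^ 2 →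
      Tendsto (fun n : ℕ => (mMonic (realInterval u v) n) ^ ((1 : ℝ) / n)) atTop
        (𝓝 (1 / (b : ℝ))) ∧ tauM (realInterval u v) = 1 / (b : ℝ)) ∧
    (∀ κ : ℝ, 1 < κ → ∀ b : ℤ, 3 ≤ b → κ / (κ - 1) ≤ b →
      Tendsto (fun n : ℕ => (mMonic (realInterval (1 / (b : ℝ) - κ / (b : ℝ) ^ 2)
        (1 / (b : ℝ) + κ / (b : ℝ) ^ 2)) n) ^ ((1 : ℝ) / n)) atTop
        (𝓝 (tauM (realInterval (1 / (b : ℝ) - κ / (b : ℝ) ^ 2)
          (1 / (b : ℝ) + κ / (b : ℝ) ^ 2)))) ∧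
      1 / (b : ℝ) < tauM (realInterval (1 / (b : ℝ) - κ / (b : ℝ) ^ 2)
        (1 / (b : ℝ) + κ / (b : ℝ) ^ 2))) ∧
    (∀ (a b : ℤ) (u v : ℝ), 2 ≤ b → IsCoprime a b → u ≤ (a : ℝ) / b → (a : ℝ) / b ≤ v →
      (∀ c d : ℤ, 1 ≤ d → d < b → (c : ℝ) / d < u ∨ v < (c : ℝ) / d) →
      Tendsto (fun n : ℕ => (mMonic (realInterval u v) n) ^ ((1 : ℝ) / n)) atTop
        (𝓝 (tauM (realInterval u v))) ∧
      1 / (b : ℝ) ≤ tauM (realInterval u v) ∧
      tauM (realInterval u v) ≤ max (1 / (b : ℝ)) (max (a - b * u) (b * v - a))) ∧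
    (∀ (p s : ℤ) (q r : ℕ) (c d : ℤ) (E : Set ℂ), 1 ≤ q → 1 ≤ r → s * q - p * r = 1 →
      2 ≤ d → d ≤ (r : ℤ) + q → IsCoprime c d → (c : ℂ) / d ∈ E →
      (∀ z ∈ E, ‖((r : ℂ) + q) * z - (p + s)‖ ≤ 1 / (d : ℝ) ∧
        ‖(q : ℂ) * z - p‖ ^ r * ‖(s : ℂ) - r * z‖ ^ q ≤ (1 / ((r : ℝ) + q)) ^ (r + q)) →
      Tendsto (fun n : ℕ => (mMonic E n) ^ ((1 : ℝ) / n)) atTop (𝓝 (1 / (d : ℝ))) ∧
        tauM E = 1 / (d : ℝ)) := by
  refine ⟨farey, two_sided, optimal, integer_free, ?_⟩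
  intro p s q r c d E hq hr hdet hd hdb hco hmem hE
  exact general hq hr hdet hd hco (by exact_mod_cast hdb) hmem (fun z hz => (hE z hz).1)
    (fun z hz => (hE z hz).2)

end Pool.Agent.Results.MP_1bffc6_nt.TwoSidedIntervals
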